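import Pool.Agent.Helper83.SV.FinalEA

/-!
# Small varieties and the Hopf property: varieties of locally elementary amenable groups

`ElemSol` is the smallest class of groups which contains the abelian groups and is closed under
extensions and local closure, `ElemAmen` the smallest such class containing the abelian and the
finite groups.

Let all finitely generated groups of the variety `V` be Hopfian. Then every finitely generated group
in `V` which is `ElemSol`-by-finite is soluble-by-finite and satisfies max-n; if the non-abelian
finite simple groups in `V` have bounded order, the same holds for all finitely generated elementary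
amenable groups in `V`.

So if all finitely generated groups of `V` are `ElemSol`-by-finite (or elementary amenable, with the
bound for simple groups), then `V` is small if and only if all its finitely generated groups are
Hopfian, if and only if all its finitely generated groups satisfy max-n.
-/

open Pool.Agent.Helper32.SmallVar Pool.Agent.Helper13.PV Pool.Agent.Helper83.SV

theorem Pool.Agent.Results.MP_cac120_al.ElementaryAmenable.result (L : Set (FreeGroup ℕ)) :
    (AllHopfian L → ∀ (G : Type) [Group G], Group.FG G → SatisfiesLaws L G →
      (ElemSolByFinite G ∨ (ElemAmen G ∧ ∃ n, BddSimple L n)) → SolByFin G ∧ MaxN G) ∧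
    ((ESVariety L ∨ (EAVariety L ∧ ∃ n, BddSimple L n)) →
      (IsSmallVariety L ↔ AllHopfian L) ∧ (AllHopfian L ↔ AllMaxN L)) := by
  constructor
  · rintro hL G _ hG hV (h | ⟨h, n, hn⟩)
    · obtain ⟨h1, S, h2, h3, h4⟩ := final_fg hL hG hV h
      exact ⟨⟨S, h2, h3, h4⟩, h1⟩
    · exact finalEA_fg hL n hn hG hV h
  · rintro (h | ⟨h, n, hn⟩)
    · exact final_equiv h
    · exact finalEA_equiv n hn h
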