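import Pool.Agent.Helper83.JN.Just7

/-!
# Small varieties and the Hopf property: the just non-soluble groups in a counterexample

Let `V` be a variety of groups, given by a set `L` of laws, such that all finitely generated groups
in `V` are Hopfian. The open half of the question is whether `V` is then small.

The theorem: a finitely generated group `G` in `V` is soluble-by-finite, or a subgroup of finite
index in `G` has a quotient `J` which is not soluble-by-finite, while all proper quotients of `J`
are, and `J` is of one of four kinds: an infinite simple group; an infinite residually finite group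
of finite exponent; residually soluble-by-finite; or with a smallest nontrivial normal subgroup `M`,
which is perfect and of infinite index. In the last two cases the proper quotients of all subgroups
of finite index in `J` are soluble-by-finite.

So `V` is small, or it contains such a group `J`.
-/

open Pool.Agent.Helper32.SmallVar Pool.Agent.Helper13.PV Pool.Agent.Helper83.SV
  Pool.Agent.Helper83.JN

namespace Pool.Agent.Results.MP_cac120_al.JustNonSoluble

/-- `J` is a quotient of a subgroup of finite index of `G`. -/
def SectionOf (G J : Type) [Group G] [Group J] : Prop :=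
  ∃ (H : Subgroup G) (f : H →* J), H.FiniteIndex ∧ Function.Surjective f

/-- `J` is a finitely generated group in the variety with the laws `L`, it is not
soluble-by-finite, but all its proper quotients are; it satisfies the maximal condition for normal
subgroups, and it has no nontrivial normal subgroup in the class `ElemSol` (which contains the
locally soluble groups). -/
structure JustNon (L : Set (FreeGroup ℕ)) (J : Type) [Group J] : Prop where
  fg : Group.FG J
  laws : SatisfiesLaws L J
  not_sbf : ¬ SolByFin J
  quot : ∀ (N : Subgroup J) [N.Normal], N ≠ ⊥ → SolByFin (J ⧸ N)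
  maxN : MaxN J
  noSol : ∀ (N : Subgroup J) [N.Normal], ElemSol N → N = ⊥

/-- All proper quotients of all subgroups of finite index are soluble-by-finite. -/
def Hereditary (J : Type) [Group J] : Prop :=
  ∀ K : Subgroup J, K.FiniteIndex → ∀ (N : Subgroup K) [N.Normal], N ≠ ⊥ → SolByFin (K ⧸ N)

/-- Residually finite. -/
def ResFin (J : Type) [Group J] : Prop :=
  ∀ x : J, x ≠ 1 → ∃ N : Subgroup J, N.Normal ∧ N.FiniteIndex ∧ x ∉ N

/-- Residually soluble-by-finite. -/
def ResSolByFin (J : Type) [Group J] : Prop :=
  ∀ x : J, x ≠ 1 → ∃ (N : Subgroup J) (_ : N.Normal), SolByFin (J ⧸ N) ∧ x ∉ N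

/-- There is a nontrivial perfect normal subgroup `M` of infinite index which is contained in all
nontrivial normal subgroups of the subgroups of finite index in `J`, and `M` has no simple quotient
except, possibly, `M` itself. -/
def Monolithic (J : Type) [Group J] : Prop :=
  ∃ M : Subgroup J, M.Normal ∧ M ≠ ⊥ ∧ ¬ M.FiniteIndex ∧ ⁅M, M⁆ = M ∧
    (∀ K : Subgroup J, K.FiniteIndex → ∀ (N : Subgroup K) [N.Normal], N ≠ ⊥ →
      M ≤ N.map K.subtype) ∧
    ∀ (N : Subgroup M) [N.Normal], IsSimpleGroup (M ⧸ N) → N = ⊥

/-- The four kinds. -/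
def Kind (J : Type) [Group J] : Prop :=
  (IsSimpleGroup J ∧ Infinite J) ∨
  (Infinite J ∧ (∃ e : ℕ, 1 ≤ e ∧ ∀ x : J, x ^ e = 1) ∧ ResFin J) ∨
  (Hereditary J ∧ ResSolByFin J) ∨
  (Hereditary J ∧ Monolithic J)

theorem result (L : Set (FreeGroup ℕ)) :
    (AllHopfian L → ∀ (G : Type) [Group G], Group.FG G → SatisfiesLaws L G → ¬ SolByFin G →
      ∃ (J : Type) (_ : Group J), SectionOf G J ∧ JustNon L J ∧ Kind J) ∧
    ((∀ (J : Type) [Group J], JustNon L J → ¬ Kind J) → (IsSmallVariety L ↔ AllHopfian L)) := by
  have key : AllHopfian L → ∀ (G : Type) [Group G], Group.FG G → SatisfiesLaws L G →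
      ¬ SolByFin G → ∃ (J : Type) (_ : Group J), SectionOf G J ∧ JustNon L J ∧ Kind J := by
    intro hL G _ hG hV hn
    obtain ⟨D, hD, hId⟩ := exists_id hL
    obtain ⟨N0, hN0, hJ0⟩ := exists_jn hL hG hV hn
    have hs0 : Sect G (G ⧸ N0) := Sect.of_surj _ (QuotientGroup.mk'_surjective N0)
    obtain ⟨J, hJg, hs, hJ, hk⟩ := kinds hD (hs0.fg hG) (hId _ (hs0.laws hV)) hJ0
    have hfg : Group.FG J := (hs0.trans hs).fg hG
    have hlaws : SatisfiesLaws L J := (hs0.trans hs).laws hV
    refine ⟨J, hJg, hs0.trans hs, ⟨hfg, hlaws, ?_, ?_, hJ.maxN hL hfg hlaws, ?_⟩, ?_⟩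
    · exact fun h => hJ.bot (solByFin_iff_sfmod.1 h)
    · intro N hN hne
      exact (solByFin_quot_iff N).2 (hJ.quot N hN hne)
    · intro N hN hes
      exact hJ.elemSol hL hfg hlaws N hes
    · have hher : Her J → Hereditary J := fun h K hK N hN hne => (her_quot h K N hne).2
      rcases hk with h | h | ⟨h1, h2⟩ | ⟨h1, M, h2, h3, h4, h5, h6, h7⟩
      · exact Or.inl h
      · exact Or.inr (Or.inl h)
      · exact Or.inr (Or.inr (Or.inl ⟨hher h1, h2⟩))
      · refine Or.inr (Or.inr (Or.inr ⟨hher h1, M, h2, h3, h4, h5, ?_, h7⟩))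
        intro K hK N hN hne
        exact h6 _ (her_quot h1 K N hne).1
  refine ⟨key, fun hno => ⟨hopfian_of_small, fun hL => ?_⟩⟩
  apply small_of_maxN
  intro G _ hG hV
  by_cases hs : SolByFin G
  · exact maxN_of_solByFin hL hG hV hs
  · exfalso
    obtain ⟨J, hJg, -, h1, h2⟩ := key hL G hG hV hs
    exact hno J h1 h2

end Pool.Agent.Results.MP_cac120_al.JustNonSoluble
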