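import Pool.Agent.Helper13.PV.Laws
import Pool.Agent.Helper13.PV.NotSmall
import Pool.Agent.Helper13.PV.InfExp
import Pool.Agent.Helper13.PV.Germ
import Pool.Agent.Helper69.PV.LF
import Pool.Agent.Helper29.NA.Core
import Pool.Agent.Helper13.NA.Small

/-!
# Small varieties and the Hopf property: product varieties

Let `U` and `W` be varieties of groups, given by sets of laws `LU` and `LW`, and let `U W` be the
product variety: all groups with a normal subgroup in `U` and quotient in `W`.

* If `W` is locally finite, then `U W` is small exactly when `U` is, and all its finitely generated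
  groups are Hopfian exactly when this holds for `U`.
* If `W` is not locally finite and `U` is not abelian, then no variety containing `U W` is small.
* If, moreover, `W` contains the infinite cyclic group or `U` satisfies no law `[x, y ^ k] = 1`,
  then `U W` contains a finitely generated group which is not Hopfian.
* If `U` is not trivial and `W` contains a non-amenable group, then `U W` contains a finitely
  generated group which is not Hopfian, and no variety containing `U W` is small.
* More generally, a variety which contains a restricted wreath product of a non-trivial group with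
  a non-amenable group is not small and contains a finitely generated group which is not Hopfian.

So the equivalence asked for holds, with both sides false, for every variety containing a product
variety as in the last three cases, and for locally finite `W` it holds for `U W` exactly when it
holds for `U`.
-/

open Pool.Agent.Helper32.SmallVar Pool.Agent.Helper13.PV Pool.Agent.Helper29.NA
open Pool.Agent.Helper13.NA

universe u

theorem Pool.Agent.Results.MP_cac120_al.ProductVarieties.result :
    (∀ LU LW : Set (FreeGroup ℕ),
      (∀ (G : Type u) [Group G],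
        SatisfiesLaws (prodLaws LU LW) G ↔ InProduct LU LW G) ∧
      (LocallyFiniteVariety LW →
        (IsSmallVariety (prodLaws LU LW) ↔ IsSmallVariety LU) ∧
        (AllHopfian (prodLaws LU LW) ↔ AllHopfian LU)) ∧
      (¬ LocallyFiniteVariety LW → ¬ IsAbelianVariety LU →
        (∀ L : Set (FreeGroup ℕ),
          (∀ (G : Type) [Group G], InProduct LU LW G → SatisfiesLaws L G) →
            ¬ IsSmallVariety L) ∧
        ((SatisfiesLaws LW (Multiplicative ℤ) ∨ ¬ CentralByExponent LU) →
          ∃ (G : Type) (_ : Group G), Group.FG G ∧ InProduct LU LW G ∧ ¬ IsHopfian G)) ∧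
      (∀ (A G : Type) [Group A] [Group G], Nontrivial A → SatisfiesLaws LU A →
        SatisfiesLaws LW G → ¬ HasMean G →
          (∀ L : Set (FreeGroup ℕ),
            (∀ (X : Type) [Group X], InProduct LU LW X → SatisfiesLaws L X) →
              ¬ IsSmallVariety L) ∧
          ∃ (H : Type) (_ : Group H), Group.FG H ∧ InProduct LU LW H ∧ ¬ IsHopfian H)) ∧
    (∀ (L : Set (FreeGroup ℕ)) (A G : Type) [Group A] [Group G], Nontrivial A → ¬ HasMean G →
      SatisfiesLaws L (restrictedWreath A G) →
        ¬ IsSmallVariety L ∧
        ∃ (H : Type) (_ : Group H), Group.FG H ∧ SatisfiesLaws L H ∧ ¬ IsHopfian H) := by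
  refine ⟨fun LU LW => ⟨fun G _ => prodLaws_iff, fun hW => ⟨?_, ?_⟩, fun hW hU => ⟨?_, ?_⟩, ?_⟩, ?_⟩
  · exact Pool.Agent.Helper69.PV.small_lf (fun G _ => prodLaws_iff) hW
  · exact Pool.Agent.Helper69.PV.hopfian_lf (fun G _ => prodLaws_iff) hW
  · intro L hL
    exact notSmall_of_not_lf hU hW hL
  · rintro (h | h)
    · exact nonHopfian_of_int hU h
    · exact nonHopfian_of_not_lf h hW
  · intro A G _ _ _ hA hW hG
    refine ⟨fun L hL hs => ?_, ?_⟩
    · obtain ⟨H, _, h1, h2, h3⟩ := product hG hA hW hL
      exact h3 (hopfian_of_small hs h1 h2)
    · obtain ⟨H, _, h1, h2, h3⟩ := product (L := prodLaws LU LW) hG hA hW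
        (fun X _ hX => prodLaws_iff.mpr hX)
      exact ⟨H, inferInstance, h1, prodLaws_iff.mp h2, h3⟩
  · intro L A G _ _ _ hG hL
    obtain ⟨H, _, h1, h2, h3⟩ := wreath hG hL
    exact ⟨fun hs => h3 (hopfian_of_small hs h1 h2), H, inferInstance, h1, h2, h3⟩
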