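import Pool.Agent.Helper32.SmallVar.Full

/-!
# Every finitely generated group in a small variety is Hopfian

One implication of the question: if a variety of groups contains only countably many finitely
generated groups up to isomorphism, then all its finitely generated groups are Hopfian. In fact the
variety generated by an `n`-generator non-Hopfian group contains continuum many pairwise
non-isomorphic `2n`-generator groups.
-/

universe u

namespace Pool.Agent.Results.MP_cac120_al.SmallImpliesHopfian

/-- `G` satisfies every law `w = 1`, `w ∈ L`; the words are in countably many variables. -/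
def SatisfiesLaws (L : Set (FreeGroup ℕ)) (G : Type u) [Group G] : Prop :=
  ∀ w ∈ L, ∀ a : ℕ → G, FreeGroup.lift a w = 1

/-- The variety defined by the laws `L` is small: up to isomorphism it contains only countably many
finitely generated groups. -/
def IsSmallVariety (L : Set (FreeGroup ℕ)) : Prop :=
  ∃ H : ℕ → GrpCat.{0}, ∀ (G : Type) [Group G], Group.FG G → SatisfiesLaws L G →
    ∃ i, Nonempty (G ≃* H i)

/-- Every surjective endomorphism is injective. -/
def IsHopfian (G : Type u) [Group G] : Prop :=
  ∀ φ : G →* G, Function.Surjective φ → Function.Injective φ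

theorem result :
    (∀ L : Set (FreeGroup ℕ), IsSmallVariety L →
      ∀ (G : Type u) [Group G], Group.FG G → SatisfiesLaws L G → IsHopfian G) ∧
    (∀ (n : ℕ) (G : Type u) [Group G] (x : Fin n → G),
      Subgroup.closure (Set.range x) = ⊤ → ¬ IsHopfian G →
      ∃ H : (ℕ → Bool) → GrpCat.{0},
        (∀ ε, ∃ y : Fin (2 * n) → H ε, Subgroup.closure (Set.range y) = ⊤) ∧
        (∀ ε, ∀ L : Set (FreeGroup ℕ), SatisfiesLaws L G → SatisfiesLaws L (H ε)) ∧
        (∀ ε δ, Nonempty (H ε ≃* H δ) → ε = δ)) :=
  Pool.Agent.Helper32.SmallVar.fullMain

end Pool.Agent.Results.MP_cac120_al.SmallImpliesHopfian
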